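import Mathlib

/-!
# Sets without monochromatic progressions (helper77)
-/

set_option autoImplicit false

namespace Pool.Agent.Zk77.AP

/-- no monochromatic progression of `C` terms in `Bad` -/
def Free {κ : Type} (C R : ℕ) (Bad : ℕ → Prop) (col : ℕ → κ) : Prop :=
  ∀ u e : ℕ, 1 ≤ u → 1 ≤ e → u + e ≤ R → ∀ γ : κ, ∃ c < C, ¬ (Bad (u + c * e) ∧ col (u + c * e) = γ)

open Classical in
/-- several sets together -/
theorem free_ex {κ : Type} {n C R : ℕ} (hC : 1 ≤ C) (Bad : Fin n → ℕ → Prop) (col : Fin n → ℕ → κ)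
    (h : ∀ ρ, Free C R (Bad ρ) (col ρ)) :
    ∃ col' : ℕ → Option (Fin n × κ), Free C R (fun k => ∃ ρ, Bad ρ k) col' := by
  refine ⟨fun k => if hk : ∃ ρ, Bad ρ k then some (hk.choose, col hk.choose k) else none, ?_⟩
  intro u e hu he hR γ
  rcases γ with _ | ⟨ρ, γ⟩
  · refine ⟨0, hC, fun hcon => ?_⟩
    obtain ⟨h1, h2⟩ := hcon
    simp only [dif_pos h1] at h2
    cases h2
  · obtain ⟨c, hc, hcn⟩ := h ρ u e hu he hR γ
    refine ⟨c, hc, fun hcon => hcn ?_⟩
    obtain ⟨h1, h2⟩ := hcon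
    simp only [dif_pos h1, Option.some_inj, Prod.mk.injEq] at h2
    obtain ⟨h3, h4⟩ := h2
    have h5 := h1.choose_spec
    rw [h3] at h4 h5
    exact ⟨h5, h4⟩

theorem Free.mono {κ : Type} {C R R' : ℕ} {Bad : ℕ → Prop} {col : ℕ → κ} (h : Free C R' Bad col) (hR : R ≤ R') :
    Free C R Bad col := fun u e hu he hue γ => h u e hu he (hue.trans hR) γ

end Pool.Agent.Zk77.AP
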