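import Pool.Agent.Helper868.DHJ
import Pool.Agent.Zk77.AP.Bas

/-!
# Sets without monochromatic progressions: sums of digits (helper77)

`Free C R Bad col`: there is no progression of `C` terms, up to the bound `R`, of members of `Bad` of the same colour.
Consequences by the density Hales-Jewett theorem: few sums of digits are in `Bad`; every long progression has an
element outside `Bad`.
-/

set_option autoImplicit false

namespace Pool.Agent.Zk77.AP

open Finset

/-- density of a finite set -/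
lemma dens_eq {X : Type} [Fintype X] [DecidableEq X] (A : Finset X) :
    Pool.Agent.Helper868.DHJ.dens (A : Set X) = (A.card : ℝ) / Fintype.card X := by
  unfold Pool.Agent.Helper868.DHJ.dens
  rw [Pool.Agent.Helper868.DHJ.av_eq_sum]
  congr 1
  have h1 : ∀ x : X, Pool.Agent.Helper868.DHJ.ind (A : Set X) x = if x ∈ A then (1 : ℝ) else 0 := by
    intro x
    by_cases h : x ∈ A
    · rw [if_pos h, Pool.Agent.Helper868.DHJ.ind_mem (by exact_mod_cast h)]
    · rw [if_neg h, Pool.Agent.Helper868.DHJ.ind_not_mem (by exact_mod_cast h)]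
  rw [sum_congr rfl fun x _ => h1 x, sum_ite_mem, univ_inter, sum_const, nsmul_eq_mul, mul_one]

/-- the sum of the digits along a line -/
lemma sum_pt {r : ℕ} {ι : Type} [Fintype ι] (u : ι → Option (Fin r)) (g : ι → Fin r → ℕ) (α β : ι → ℕ)
    (b : Fin r) (hb : ∀ i, g i b = α i + b * β i) :
    ∑ i, g i (Pool.Agent.Helper868.DHJ.pt u b i) =
      ∑ i, (match u i with | none => α i | some x => g i x) +
      (b : ℕ) * ∑ i, (match u i with | none => β i | some _ => 0) := by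
  rw [mul_sum, ← sum_add_distrib]
  refine sum_congr rfl fun i _ => ?_
  unfold Pool.Agent.Helper868.DHJ.pt
  rcases hu : u i with _ | x
  · simp only [Option.getD_none]
    exact hb i
  · simp

open Classical in
/-- **Few sums of digits are bad.** -/
theorem cubes {κ : Type} [Fintype κ] (C r : ℕ) (hC : 1 ≤ C) (hr : C ≤ r) (ε : ℝ) (hε : 0 < ε) :
    ∃ n0 : ℕ, ∀ (ι : Type) [Fintype ι] [DecidableEq ι], n0 ≤ Fintype.card ι →
    ∀ (Bad : ℕ → Prop) (col : ℕ → κ) (R : ℕ), Free C R Bad col →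
    ∀ (w0 : ℕ) (g : ι → Fin r → ℕ) (α β : ι → ℕ), 1 ≤ w0 → (∀ i, 1 ≤ β i) →
    (∀ i (b : Fin r), (b : ℕ) < C → g i b = α i + b * β i) →
    (∀ y : ι → Fin r, w0 + ∑ i, (g i (y i) + β i) ≤ R) →
    ((univ.filter (fun y : ι → Fin r => Bad (w0 + ∑ i, g i (y i)))).card : ℝ) ≤
      ε * (r : ℝ) ^ Fintype.card ι := by
  rcases isEmpty_or_nonempty κ with hκ | hκ
  · refine ⟨0, fun ι _ _ _ Bad col R _ => (hκ.false (col 0)).elim⟩
  have hκ0 : 0 < Fintype.card κ := Fintype.card_pos
  have hκr : (0 : ℝ) < Fintype.card κ := by exact_mod_cast hκ0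
  obtain ⟨N, hN⟩ := Pool.Agent.Helper868.DHJ.density_hales_jewett (Fin r) (ε / Fintype.card κ) (by positivity)
  refine ⟨N, fun ι _ _ hι Bad col R hF w0 g α β hw0 hβ hg hR => ?_⟩
  have hr0 : 0 < r := by omega
  obtain ⟨A, hA⟩ : ∃ A : κ → Finset (ι → Fin r), ∀ γ y, y ∈ A γ ↔
      (Bad (w0 + ∑ i, g i (y i)) ∧ col (w0 + ∑ i, g i (y i)) = γ) :=
    ⟨fun γ => univ.filter (fun y => Bad (w0 + ∑ i, g i (y i)) ∧ col (w0 + ∑ i, g i (y i)) = γ),
      fun γ y => by simp⟩
  have hfree : ∀ γ, Pool.Agent.Helper868.DHJ.LineFree (A γ : Set (ι → Fin r)) := by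
    intro γ u hu
    obtain ⟨i0, hi0⟩ := hu
    obtain ⟨s, hs⟩ : ∃ s : ℕ, s = ∑ i, (match u i with | none => α i | some x => g i x) := ⟨_, rfl⟩
    obtain ⟨e, he⟩ : ∃ e : ℕ, e = ∑ i, (match u i with | none => β i | some _ => 0) := ⟨_, rfl⟩
    have hpt : ∀ b : Fin r, (b : ℕ) < C →
        ∑ i, g i (Pool.Agent.Helper868.DHJ.pt u b i) = s + b * e := by
      intro b hb
      rw [hs, he]
      exact sum_pt u g α β b (fun i => hg i b hb)
    have he1 : 1 ≤ e := by
      rw [he]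
      have h1 : (match u i0 with | none => β i0 | some _ => 0) ≤
          ∑ i, (match u i with | none => β i | some _ => 0) :=
        single_le_sum (f := fun i => (match u i with | none => β i | some _ => 0))
          (fun _ _ => Nat.zero_le _) (mem_univ i0)
      rw [hi0] at h1
      exact (hβ i0).trans h1
    have hb0 := hpt ⟨0, hr0⟩ hC
    rw [show (((⟨0, hr0⟩ : Fin r) : ℕ)) = 0 from rfl, zero_mul, add_zero] at hb0
    have hse : (w0 + s) + e ≤ R := by
      have h1 := hR (Pool.Agent.Helper868.DHJ.pt u ⟨0, hr0⟩)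
      rw [sum_add_distrib, hb0] at h1
      have h2 : e ≤ ∑ i, β i := by
        rw [he]
        refine sum_le_sum fun i _ => ?_
        rcases u i with _ | x
        · exact le_refl _
        · exact Nat.zero_le _
      omega
    obtain ⟨c, hc, hcn⟩ := hF (w0 + s) e (by omega) he1 hse γ
    refine ⟨⟨c, by omega⟩, fun hmem => hcn ?_⟩
    have h1 := (hA γ _).1 (mem_coe.1 hmem)
    rw [hpt ⟨c, by omega⟩ hc] at h1
    have e1 : w0 + (s + ((⟨c, by omega⟩ : Fin r) : ℕ) * e) = w0 + s + c * e := by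
      show w0 + (s + c * e) = w0 + s + c * e
      ring
    rw [e1] at h1
    exact h1
  have hcardX : (Fintype.card (ι → Fin r) : ℝ) = (r : ℝ) ^ Fintype.card ι := by
    rw [Fintype.card_fun, Fintype.card_fin]
    push_cast
    rfl
  have hXpos : (0 : ℝ) < (r : ℝ) ^ Fintype.card ι := by
    have : (0 : ℝ) < r := by exact_mod_cast hr0
    positivity
  have hAc : ∀ γ, ((A γ).card : ℝ) ≤ ε / Fintype.card κ * (r : ℝ) ^ Fintype.card ι := by
    intro γ
    have h1 := hN ι hι _ (hfree γ)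
    rw [dens_eq, div_lt_iff₀ (by rw [hcardX]; exact hXpos), hcardX] at h1
    exact h1.le
  have hU : (univ.filter (fun y : ι → Fin r => Bad (w0 + ∑ i, g i (y i)))).card ≤ ∑ γ : κ, (A γ).card := by
    refine (card_le_card ?_).trans card_biUnion_le
    intro y hy
    rw [mem_biUnion]
    exact ⟨col (w0 + ∑ i, g i (y i)), mem_univ _, (hA _ _).2 ⟨(mem_filter.1 hy).2, rfl⟩⟩
  calc ((univ.filter (fun y : ι → Fin r => Bad (w0 + ∑ i, g i (y i)))).card : ℝ)
      ≤ ((∑ γ : κ, (A γ).card : ℕ) : ℝ) := by exact_mod_cast hU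
    _ = ∑ γ : κ, ((A γ).card : ℝ) := by push_cast; rfl
    _ ≤ ∑ _γ : κ, ε / Fintype.card κ * (r : ℝ) ^ Fintype.card ι := sum_le_sum fun γ _ => hAc γ
    _ = ε * (r : ℝ) ^ Fintype.card ι := by
        rw [sum_const, card_univ, nsmul_eq_mul]
        field_simp

open Classical in
/-- **Every long progression has an element outside `Bad`.** -/
theorem everyAP {κ : Type} [Fintype κ] (C : ℕ) (hC : 1 ≤ C) : ∃ L : ℕ, 1 ≤ L ∧
    ∀ (Bad : ℕ → Prop) (col : ℕ → κ) (R : ℕ), Free C R Bad col →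
    ∀ u e : ℕ, 1 ≤ u → 1 ≤ e → L * (u + e) ≤ R → ∃ c < L, ¬ Bad (u + c * e) := by
  obtain ⟨n0, h⟩ := cubes (κ := κ) C C hC le_rfl (1 / 2) (by norm_num)
  refine ⟨n0 * C + 2, by omega, fun Bad col R hF u e hu he hR => ?_⟩
  have hCr : (0 : ℝ) < C := by exact_mod_cast hC
  have h1 := h (Fin n0) (by rw [Fintype.card_fin]) Bad col R hF u (fun _ b => (b : ℕ) * e) (fun _ => 0)
    (fun _ => e) hu (fun _ => he) (fun _ b _ => by rw [zero_add]) (fun y => by
      have h2 : ∑ i : Fin n0, ((y i : ℕ) * e + e) ≤ n0 * (C * e) := by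
        calc ∑ i : Fin n0, ((y i : ℕ) * e + e) ≤ ∑ _i : Fin n0, C * e := by
              refine sum_le_sum fun i _ => ?_
              have h3 := (y i).2
              calc (y i : ℕ) * e + e = ((y i : ℕ) + 1) * e := by ring
                _ ≤ C * e := Nat.mul_le_mul_right _ h3
          _ = n0 * (C * e) := by rw [sum_const, card_univ, Fintype.card_fin, smul_eq_mul]
      refine (Nat.add_le_add_left h2 u).trans (le_trans ?_ hR)
      have h4 : (n0 * C + 2) * (u + e) = u + n0 * (C * e) + (n0 * C * u + u + 2 * e) := by ring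
      omega)
  rw [Fintype.card_fin] at h1
  have hpos : (0 : ℝ) < (C : ℝ) ^ n0 := by positivity
  by_contra hcon
  push Not at hcon
  have h2 : ∀ y ∈ (univ : Finset (Fin n0 → Fin C)), Bad (u + ∑ i, (y i : ℕ) * e) := by
    intro y _
    rw [← sum_mul]
    apply hcon
    have h3 : ∑ i : Fin n0, (y i : ℕ) ≤ n0 * C := by
      calc ∑ i : Fin n0, (y i : ℕ) ≤ ∑ _i : Fin n0, C := sum_le_sum fun i _ => (y i).2.le
        _ = n0 * C := by rw [sum_const, card_univ, Fintype.card_fin, smul_eq_mul]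
    omega
  rw [Finset.filter_true_of_mem h2, card_univ, Fintype.card_fun, Fintype.card_fin, Fintype.card_fin] at h1
  push_cast at h1
  linarith

open Classical in
/-- **Sums of elements of sets of digits.** -/
theorem digits {κ : Type} [Fintype κ] (C r : ℕ) (hC : 1 ≤ C) (hr : C ≤ r) (ε : ℝ) (hε : 0 < ε) :
    ∃ n0 : ℕ, ∀ n : ℕ, n0 ≤ n → ∀ (Bad : ℕ → Prop) (col : ℕ → κ) (R : ℕ), Free C R Bad col →
    ∀ (w0 : ℕ) (D : Fin n → Finset ℕ), 1 ≤ w0 → (∀ i, (D i).card = r) →
    (∀ i, ∃ u e : ℕ, 1 ≤ e ∧ ∀ c < C, u + c * e ∈ D i) →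
    (∀ x ∈ Fintype.piFinset D, w0 + 2 * ∑ i, x i ≤ R) →
    (2 ≤ C) →
    (((Fintype.piFinset D).filter (fun x => Bad (w0 + ∑ i, x i))).card : ℝ) ≤ ε * (r : ℝ) ^ n := by
  obtain ⟨n0, h⟩ := cubes (κ := κ) C r hC hr ε hε
  refine ⟨n0, fun n hn Bad col R hF w0 D hw0 hDr hDC hR hC2 => ?_⟩
  choose α β hβ hαβ using hDC
  have hext : ∀ i, ∃ g : Fin r ≃ {x // x ∈ D i}, ∀ b : Fin r, (b : ℕ) < C → ((g b : {x // x ∈ D i}) : ℕ) = α i + b * β i := by
    intro i
    obtain ⟨g, hg⟩ := Finset.exists_equiv_extend_of_card_eq (t := D i) (by rw [Fintype.card_fin, hDr])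
      (s := univ.filter (fun b : Fin r => (b : ℕ) < C)) (f := fun b : Fin r => α i + (b : ℕ) * β i)
      (by
        intro x hx
        obtain ⟨b, hb, rfl⟩ := mem_image.1 hx
        exact hαβ i b (mem_filter.1 hb).2)
      (by
        intro b _ b' _ hbb
        have h1 : α i + (b : ℕ) * β i = α i + (b' : ℕ) * β i := hbb
        have h2 : (b : ℕ) * β i = (b' : ℕ) * β i := by omega
        exact Fin.ext (Nat.eq_of_mul_eq_mul_right (hβ i) h2))
    exact ⟨g, fun b hb => hg b (mem_filter.2 ⟨mem_univ _, hb⟩)⟩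
  choose g hg using hext
  have h1 := h (Fin n) (by rw [Fintype.card_fin]; exact hn) Bad col R hF w0 (fun i b => ((g i b : {x // x ∈ D i}) : ℕ)) α β hw0
    hβ hg (fun y => by
      have hz : ∀ i, ∃ z ∈ D i, ((g i (y i) : {x // x ∈ D i}) : ℕ) + β i ≤ 2 * z := by
        intro i
        have h2 : α i + 1 * β i ∈ D i := hαβ i 1 (by omega)
        rcases le_total ((g i (y i) : {x // x ∈ D i}) : ℕ) (α i + 1 * β i) with h3 | h3
        · exact ⟨_, h2, by omega⟩
        · exact ⟨_, (g i (y i)).2, by omega⟩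
      choose z hz1 hz2 using hz
      refine le_trans ?_ (hR z (Fintype.mem_piFinset.2 hz1))
      have h4 : ∑ i, (((g i (y i) : {x // x ∈ D i}) : ℕ) + β i) ≤ ∑ i, 2 * z i :=
        sum_le_sum fun i _ => hz2 i
      rw [← mul_sum] at h4
      omega)
  rw [Fintype.card_fin] at h1
  refine le_trans ?_ h1
  rw [Nat.cast_le]
  refine card_le_card_of_surjOn (fun y : Fin n → Fin r => fun i => ((g i (y i) : {x // x ∈ D i}) : ℕ)) ?_
  intro x hx
  rw [mem_coe, mem_filter, Fintype.mem_piFinset] at hx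
  refine ⟨fun i => (g i).symm ⟨x i, hx.1 i⟩, ?_, ?_⟩
  · rw [mem_coe, mem_filter]
    refine ⟨mem_univ _, ?_⟩
    simp only [Equiv.apply_symm_apply]
    exact hx.2
  · funext i
    simp only [Equiv.apply_symm_apply]

end Pool.Agent.Zk77.AP
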