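import Pool.Agent.Zk77.AP.Lem
import Pool.Agent.Zk77.AP.UseH

/-!
# Good multipliers: several moduli, sums of digits, progressions (helper77)
-/

set_option autoImplicit false

namespace Pool.Agent.Zk77.AP

open Finset Filter
open Pool.Agent.Y877

/-- the multipliers which are bad for one of the moduli contain no monochromatic progression -/
theorem gapFree (m : Fin 4 → ℕ) (hm : Function.Injective m) :
    ∃ C : ℕ, 2 ≤ C ∧ ∀ (R : ℕ) (N a b : Fin R → ℕ), (∀ ρ, Squarefree (N ρ)) → (∀ ρ, 2 ∣ N ρ) →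
    (∀ ρ, (a ρ).Coprime (N ρ)) → (∀ ρ, 1 ≤ b ρ) →
    (∀ ρ, ∀ p : ℕ, p.Prime → ¬ p ∣ N ρ → ∃ r : ℤ, ∀ i, ¬ (p : ℤ) ∣ b ρ * m i + r) →
    ∀ R0 : ℕ, ∃ col : ℕ → Option (Fin R × Unit),
      Free C R0 (fun k => ∃ ρ, ¬ ∃ i j, m i < m j ∧ IsGap (N ρ) (a ρ) (b ρ * ((m j - m i) * k))) col := by
  obtain ⟨C, hC, h⟩ := apIsGap m hm
  refine ⟨C + 1, by omega, fun R N a b hsq h2 ha hb hadm R0 => ?_⟩
  refine free_ex (by omega)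
    (fun ρ k => ¬ ∃ i j, m i < m j ∧ IsGap (N ρ) (a ρ) (b ρ * ((m j - m i) * k)))
    (fun _ _ => ()) (fun ρ => ?_)
  intro u e hu he _ γ
  obtain ⟨c, hc, i, j, hij, hG⟩ := h (N ρ) (a ρ) (hsq ρ) (h2 ρ) (ha ρ) (b ρ) (hb ρ) (hadm ρ) u e hu he
  exact ⟨c, by omega, fun hcon => hcon.1 ⟨i, j, hij, hG⟩⟩

/-- **Every long progression contains a multiplier which is good for all the moduli.** -/
theorem gapAP (m : Fin 4 → ℕ) (hm : Function.Injective m) (R : ℕ) :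
    ∃ L : ℕ, 1 ≤ L ∧ ∀ N a b : Fin R → ℕ, (∀ ρ, Squarefree (N ρ)) → (∀ ρ, 2 ∣ N ρ) →
    (∀ ρ, (a ρ).Coprime (N ρ)) → (∀ ρ, 1 ≤ b ρ) →
    (∀ ρ, ∀ p : ℕ, p.Prime → ¬ p ∣ N ρ → ∃ r : ℤ, ∀ i, ¬ (p : ℤ) ∣ b ρ * m i + r) →
    ∀ t e : ℕ, 1 ≤ t → 1 ≤ e → ∃ c < L, ∀ ρ, ∃ i j, m i < m j ∧
      IsGap (N ρ) (a ρ) (b ρ * ((m j - m i) * (t + c * e))) := by
  obtain ⟨C, hC, h⟩ := gapFree m hm
  obtain ⟨L, hL, h1⟩ := everyAP (κ := Option (Fin R × Unit)) C (by omega)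
  refine ⟨L, hL, fun N a b hsq h2 ha hb hadm t e ht he => ?_⟩
  obtain ⟨col, hF⟩ := h R N a b hsq h2 ha hb hadm (L * (t + e))
  obtain ⟨c, hc, hc1⟩ := h1 _ col _ hF t e ht he le_rfl
  refine ⟨c, hc, fun ρ => ?_⟩
  by_contra hcon
  exact hc1 ⟨ρ, hcon⟩

open Classical in
/-- **Sums of digits.** -/
theorem gapDigits (m : Fin 4 → ℕ) (hm : Function.Injective m) :
    ∃ C : ℕ, ∀ R r : ℕ, C ≤ r → ∀ ε : ℝ, 0 < ε → ∃ n₀ : ℕ, ∀ n : ℕ, n₀ ≤ n →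
    ∀ N a b : Fin R → ℕ, (∀ ρ, Squarefree (N ρ)) → (∀ ρ, 2 ∣ N ρ) →
    (∀ ρ, (a ρ).Coprime (N ρ)) → (∀ ρ, 1 ≤ b ρ) →
    (∀ ρ, ∀ p : ℕ, p.Prime → ¬ p ∣ N ρ → ∃ r : ℤ, ∀ i, ¬ (p : ℤ) ∣ b ρ * m i + r) →
    ∀ w : ℕ, 1 ≤ w → ∀ D : Fin n → Finset ℕ, (∀ l, (D l).card = r) →
    (∀ l, ∃ u e : ℕ, 1 ≤ e ∧ ∀ c < C, u + c * e ∈ D l) →
    (1 - ε) * (r : ℝ) ^ n ≤ (((Fintype.piFinset D).filter (fun x => ∀ ρ, ∃ i j, m i < m j ∧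
      IsGap (N ρ) (a ρ) (b ρ * ((m j - m i) * (w + ∑ l, x l))))).card : ℝ) := by
  obtain ⟨C, hC, h⟩ := gapFree m hm
  refine ⟨C, fun R r hr ε hε => ?_⟩
  obtain ⟨n0, h1⟩ := digits (κ := Option (Fin R × Unit)) C r (by omega) hr ε hε
  refine ⟨n0, fun n hn N a b hsq h2 ha hb hadm w hw D hDr hDC => ?_⟩
  obtain ⟨B, hB⟩ : ∃ B : ℕ, ∀ x ∈ Fintype.piFinset D, w + 2 * ∑ l, x l ≤ B :=
    ⟨(Fintype.piFinset D).sup (fun x => w + 2 * ∑ l, x l),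
      fun x hx => Finset.le_sup (f := fun x : Fin n → ℕ => w + 2 * ∑ l, x l) hx⟩
  obtain ⟨col, hF⟩ := h R N a b hsq h2 ha hb hadm B
  have h3 := h1 n hn _ col B hF w D hw hDr hDC hB hC
  have h4 := card_filter_add_card_filter_not (s := Fintype.piFinset D)
    (fun x : Fin n → ℕ => ∃ ρ, ¬ ∃ i j, m i < m j ∧
      IsGap (N ρ) (a ρ) (b ρ * ((m j - m i) * (w + ∑ l, x l))))
  rw [Fintype.card_piFinset, prod_congr rfl fun l _ => hDr l, prod_const, card_univ, Fintype.card_fin] at h4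
  have h5 : ((((Fintype.piFinset D).filter (fun x : Fin n → ℕ => ∃ ρ, ¬ ∃ i j, m i < m j ∧
      IsGap (N ρ) (a ρ) (b ρ * ((m j - m i) * (w + ∑ l, x l))))).card : ℕ) : ℝ) +
      (((Fintype.piFinset D).filter (fun x : Fin n → ℕ => ¬ ∃ ρ, ¬ ∃ i j, m i < m j ∧
      IsGap (N ρ) (a ρ) (b ρ * ((m j - m i) * (w + ∑ l, x l))))).card : ℝ) = (r : ℝ) ^ n := by
    exact_mod_cast h4
  have h6 : (Fintype.piFinset D).filter (fun x : Fin n → ℕ => ¬ ∃ ρ, ¬ ∃ i j, m i < m j ∧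
      IsGap (N ρ) (a ρ) (b ρ * ((m j - m i) * (w + ∑ l, x l)))) =
      (Fintype.piFinset D).filter (fun x => ∀ ρ, ∃ i j, m i < m j ∧
      IsGap (N ρ) (a ρ) (b ρ * ((m j - m i) * (w + ∑ l, x l)))) := by
    refine filter_congr fun x _ => ?_
    push Not
    rfl
  rw [h6] at h5
  have h7 : ((((Fintype.piFinset D).filter (fun x : Fin n → ℕ => ∃ ρ, ¬ ∃ i j, m i < m j ∧
      IsGap (N ρ) (a ρ) (b ρ * ((m j - m i) * (w + ∑ l, x l))))).card : ℕ) : ℝ) ≤ ε * (r : ℝ) ^ n := by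
    convert h3
  linarith

end Pool.Agent.Zk77.AP
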