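import Pool.Agent.Y677.RSZ.Fin
import Pool.Agent.Zk77.AP.Bas

/-!
# Sets without monochromatic progressions: arguments with rough values (helper77)
-/

set_option autoImplicit false

namespace Pool.Agent.Zk77.AP

open Polynomial Finset Filter
open Pool.Agent.W123.RU
open Pool.Agent.TH977.PW (N Rough)
open Pool.Agent.Y677.RSZ

open Classical in
/-- **Few arguments with rough values are bad.** -/
theorem roughs {κ : Type} [Fintype κ] {ι : Type} [Fintype ι] [Nonempty ι] (f : ι → ℤ[X]) (hf : Poly.Sys f)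
    (θ : ℝ) (hθ : 0 < θ) (r : ℕ) (hr : 2 ≤ r) (C : ℕ) (hC : 2 ≤ C) (ε : ℝ) (hε : 0 < ε) :
    ∀ᶠ X : ℕ in atTop, ∀ Y : ℕ, (X : ℝ) ^ θ ≤ Y → Y ≤ X →
    ∀ (Bad : ℕ → Prop) (col : ℕ → κ), Free C (X + Y) Bad col →
    (((Ioc X (X + Y)).filter (fun m => Rough f r m ∧ Bad m)).card : ℝ) ≤
      ε * Y / Real.log X ^ (Fintype.card ι) := by
  rcases isEmpty_or_nonempty κ with hκ | hκ
  · exact Eventually.of_forall fun X Y _ _ Bad col => (hκ.false (col 0)).elim
  have hκ0 : 0 < Fintype.card κ := Fintype.card_pos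
  have hκr : (0 : ℝ) < Fintype.card κ := by exact_mod_cast hκ0
  obtain ⟨B, hB⟩ := narrow f hf θ hθ r hr C hC (ε / Fintype.card κ) (by positivity)
  filter_upwards [hB] with X hX Y hXY hYX Bad col hF
  obtain ⟨A, hA⟩ : ∃ A : κ → Set ℕ, A = fun γ => {m | Rough f r m ∧ Bad m ∧ col m = γ} := ⟨_, rfl⟩
  have hAc : ∀ γ, (((Ioc X (X + Y)).filter (fun m => m ∈ A γ)).card : ℝ) ≤
      ε / Fintype.card κ * Y / Real.log X ^ (Fintype.card ι) := by
    intro γ
    refine le_trans ?_ (hX Y hXY hYX (A γ) (fun m hm => by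
      rw [hA] at hm
      exact hm.1))
    rw [Nat.cast_le]
    unfold N
    apply card_le_card
    intro m hm
    rw [mem_filter] at hm ⊢
    refine ⟨hm.1, hm.2, ?_⟩
    rintro ⟨u, e, he, -, hue, -⟩
    obtain ⟨c, hc, hcn⟩ := hF u e (by
      have h1 := (hue 0 (by omega)).2.1
      omega) he (by
      have h1 := (hue 1 (by omega)).2.2
      omega) γ
    have h1 := (hue c hc).1
    rw [hA] at h1
    exact hcn ⟨h1.2.1, h1.2.2⟩
  have hU : ((Ioc X (X + Y)).filter (fun m => Rough f r m ∧ Bad m)).card ≤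
      ∑ γ : κ, ((Ioc X (X + Y)).filter (fun m => m ∈ A γ)).card := by
    refine (card_le_card ?_).trans card_biUnion_le
    intro m hm
    rw [mem_filter] at hm
    rw [mem_biUnion]
    refine ⟨col m, mem_univ _, mem_filter.2 ⟨hm.1, ?_⟩⟩
    rw [hA]
    exact ⟨hm.2.1, hm.2.2, rfl⟩
  calc (((Ioc X (X + Y)).filter (fun m => Rough f r m ∧ Bad m)).card : ℝ)
      ≤ ((∑ γ : κ, ((Ioc X (X + Y)).filter (fun m => m ∈ A γ)).card : ℕ) : ℝ) := by exact_mod_cast hU
    _ = ∑ γ : κ, (((Ioc X (X + Y)).filter (fun m => m ∈ A γ)).card : ℝ) := by push_cast; rfl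
    _ ≤ ∑ _γ : κ, ε / Fintype.card κ * Y / Real.log X ^ (Fintype.card ι) := sum_le_sum fun γ _ => hAc γ
    _ = ε * Y / Real.log X ^ (Fintype.card ι) := by
        rw [sum_const, card_univ, nsmul_eq_mul]
        field_simp

end Pool.Agent.Zk77.AP
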