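import Pool.Agent.Zk77.AP.Lem
import Pool.Agent.Zk77.AP.UseN

/-!
# Good multipliers among the arguments with rough values (helper77)
-/

set_option autoImplicit false

namespace Pool.Agent.Zk77.AP

open Finset Filter Polynomial
open Pool.Agent.Y877
open Pool.Agent.W123.RU
open Pool.Agent.TH977.PW (Rough)

/-- the multipliers which are bad for one of the moduli contain no monochromatic progression -/
theorem gapFree2 (m : Fin 4 → ℕ) (hm : Function.Injective m) :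
    ∃ C : ℕ, 2 ≤ C ∧ ∀ (R : ℕ) (N a b : Fin R → ℕ), (∀ ρ, Squarefree (N ρ)) → (∀ ρ, 2 ∣ N ρ) →
    (∀ ρ, (a ρ).Coprime (N ρ)) → (∀ ρ, 1 ≤ b ρ) →
    (∀ ρ, ∀ p : ℕ, p.Prime → ¬ p ∣ N ρ → ∃ r : ℤ, ∀ i, ¬ (p : ℤ) ∣ b ρ * m i + r) →
    ∀ R0 : ℕ, ∃ col : ℕ → Option (Fin R × Unit),
      Free C R0 (fun k => ∃ ρ, ¬ ∃ i j, m i < m j ∧ IsGap (N ρ) (a ρ) (b ρ * ((m j - m i) * k))) col := by
  obtain ⟨C, hC, h⟩ := apIsGap m hm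
  refine ⟨C + 1, by omega, fun R N a b hsq h2 ha hb hadm R0 => ?_⟩
  refine free_ex (by omega)
    (fun ρ k => ¬ ∃ i j, m i < m j ∧ IsGap (N ρ) (a ρ) (b ρ * ((m j - m i) * k)))
    (fun _ _ => ()) (fun ρ => ?_)
  intro u e hu he _ γ
  obtain ⟨c, hc, i, j, hij, hG⟩ := h (N ρ) (a ρ) (hsq ρ) (h2 ρ) (ha ρ) (b ρ) (hb ρ) (hadm ρ) u e hu he
  exact ⟨c, by omega, fun hcon => hcon.1 ⟨i, j, hij, hG⟩⟩

open Classical in
/-- **Few arguments with rough values are bad multipliers.** -/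
theorem gapRough (m : Fin 4 → ℕ) (hm : Function.Injective m) {ι : Type} [Fintype ι] [Nonempty ι]
    (f : ι → ℤ[X]) (hf : Poly.Sys f) (R s : ℕ) (hs : 2 ≤ s) (θ : ℝ) (hθ : 0 < θ) (ε : ℝ) (hε : 0 < ε) :
    ∀ᶠ x : ℕ in atTop, ∀ Y : ℕ, (x : ℝ) ^ θ ≤ Y → Y ≤ x →
    ∀ N a b : Fin R → ℕ, (∀ ρ, Squarefree (N ρ)) → (∀ ρ, 2 ∣ N ρ) →
    (∀ ρ, (a ρ).Coprime (N ρ)) → (∀ ρ, 1 ≤ b ρ) →
    (∀ ρ, ∀ p : ℕ, p.Prime → ¬ p ∣ N ρ → ∃ r : ℤ, ∀ i, ¬ (p : ℤ) ∣ b ρ * m i + r) →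
    (((Ioc x (x + Y)).filter (fun k => Rough f s k ∧ ¬ ∀ ρ, ∃ i j, m i < m j ∧
      IsGap (N ρ) (a ρ) (b ρ * ((m j - m i) * k)))).card : ℝ) ≤
      ε * Y / Real.log x ^ (Fintype.card ι) := by
  obtain ⟨C, hC, h⟩ := gapFree2 m hm
  filter_upwards [roughs (κ := Option (Fin R × Unit)) f hf θ hθ s hs C hC ε hε] with x hx Y hxY hYx
    N a b hsq h2 ha hb hadm
  obtain ⟨col, hF⟩ := h R N a b hsq h2 ha hb hadm (x + Y)
  generalize hBad : (fun k => ∃ ρ, ¬ _) = Bad at hF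
  have h1 := hx Y hxY hYx Bad col hF
  refine le_trans ?_ h1
  rw [Nat.cast_le]
  apply card_le_card
  intro k hk
  rw [mem_filter] at hk ⊢
  refine ⟨hk.1, hk.2.1, ?_⟩
  rw [← hBad]
  by_contra hcon
  push Not at hcon
  exact hk.2.2 hcon

end Pool.Agent.Zk77.AP
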