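import Pool.Agent.Y877.Consec2

/-!
# Every progression of bounded length contains a good multiplier (helper77)

`m 0, …, m 3` distinct. There are `K` and `P` (a multiple of all the differences `m j - m i`) such that for every `t`
and all `D : Fin K → ℕ` injective with `P D i < t` one of the numbers `N b |(m j - m i) t + P (D x - D y)|` is a gap
between consecutive primes of the class `a` modulo `N`: otherwise the numbers `m g t + P D i`, `i < K`, are four
classes of shifts without gaps. Taking the `D i` in progression: every progression of `C` terms contains a `k` such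
that one of the numbers `N b |m j - m i| k` is a gap.
-/

set_option autoImplicit false

namespace Pool.Agent.Zk77.AP

open Finset Filter Topology
open Pool.Agent.W59.GB Pool.Agent.H947R3.GM Pool.Agent.W25.UB Pool.Agent.Y877

/-- the differences `m g - m g'` divide `(∑ m)!` -/
lemma dvd_fact {n : ℕ} (m : Fin n → ℕ) (g g' : Fin n) (h : m g < m g') :
    (m g' - m g) ∣ (∑ g, m g).factorial := by
  have h2 : m g' ≤ ∑ g, m g := single_le_sum (f := m) (fun _ _ => Nat.zero_le _) (mem_univ g')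
  exact Nat.dvd_factorial (by omega) (by omega)

theorem genGap (hCB : St_CB) (m : Fin 4 → ℕ) (hm : Function.Injective m) :
    ∃ K P : ℕ, 1 ≤ K ∧ 1 ≤ P ∧ (∀ i j, m i < m j → (m j - m i) ∣ P) ∧
    ∀ N a : ℕ, 0 < N → 2 ∣ N → Squarefree N → a.Coprime N → ∀ b : ℕ, 1 ≤ b →
    (∀ p : ℕ, p.Prime → ¬ p ∣ N → ∃ r : ℤ, ∀ g, ¬ (p : ℤ) ∣ b * m g + r) →
    ∀ (t : ℕ) (D : Fin K → ℕ), Function.Injective D → (∀ i, P * D i < t) →
    ∃ x y i j, m i < m j ∧ b * ((m j - m i) * t + P * D x - P * D y) ∈ GapB N a := by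
  obtain ⟨K, hK, hF⟩ := four hCB
  obtain ⟨P, hP⟩ : ∃ P : ℕ, P = (4 * K).factorial * (∑ g, m g).factorial := ⟨_, rfl⟩
  have hP1 : 1 ≤ P := by
    rw [hP]
    exact Nat.mul_pos (Nat.factorial_pos _) (Nat.factorial_pos _)
  have hPd : ∀ i j, m i < m j → (m j - m i) ∣ P := by
    intro i j hij
    rw [hP]
    exact (dvd_fact m i j hij).mul_left _
  refine ⟨K, P, hK, hP1, hPd, fun N a hN h2N hsq ha b hb hbadm t D hD hDt => ?_⟩
  obtain ⟨A, hA⟩ : ∃ A : Fin 4 → Fin K → ℕ, A = fun g i => m g * t + P * D i := ⟨_, rfl⟩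
  have hAe : ∀ g i, A g i = m g * t + P * D i := fun g i => by rw [hA]
  -- the order of the shifts
  have hord : ∀ g g' (i i' : Fin K), m g < m g' → A g i < A g' i' := by
    intro g g' i i' hlt
    rw [hAe, hAe]
    have h1 := hDt i
    have h2 : m g * t + t ≤ m g' * t := by
      calc m g * t + t = (m g + 1) * t := by ring
        _ ≤ m g' * t := Nat.mul_le_mul_right _ hlt
    omega
  have hinj : Function.Injective (fun z : Fin 4 × Fin K => A z.1 z.2) := by
    rintro ⟨g, i⟩ ⟨g', i'⟩ h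
    have h' : A g i = A g' i' := h
    rcases lt_trichotomy (m g) (m g') with hlt | heq | hlt
    · exact absurd h' (hord g g' i i' hlt).ne
    · obtain rfl := hm heq
      rw [hAe, hAe] at h'
      have h1 : P * D i = P * D i' := by omega
      rw [hD (Nat.eq_of_mul_eq_mul_left hP1 h1)]
    · exact absurd h' (hord g' g i' i hlt).ne'
  have hWP : (4 * K).factorial ∣ P := by
    rw [hP]
    exact dvd_mul_right _ _
  obtain ⟨g, g', i, i', hg, hlt, hG⟩ := hF N a hN h2N hsq ha (fun g i => b * A g i) ⟨by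
      intro z z' h
      apply hinj
      exact Nat.eq_of_mul_eq_mul_left (by omega : 0 < b) h, fun p hp hpN => by
      obtain ⟨n, hn⟩ := admT 4 K b m p hp (hbadm p hp hpN) A (fun g => (m g * t) % (4 * K).factorial) t
        (fun g i => by
          rw [hAe, Nat.add_mod, Nat.mod_eq_zero_of_dvd (hWP.mul_right _), add_zero, Nat.mod_mod])
        (fun g i => by
          have e1 : (A g i : ℤ) - m g * t = ((P * D i : ℕ) : ℤ) := by
            rw [hAe]
            push_cast
            ring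
          rw [e1]
          have h4 : Nat.factorial 4 ∣ P :=
            (Nat.factorial_dvd_factorial (Nat.le_mul_of_pos_right _ hK)).trans hWP
          exact_mod_cast h4.mul_right _)
      refine ⟨n, fun g i h => hn g i ?_⟩
      rw [add_comm]
      exact h⟩
  have hlt' : A g i < A g' i' := Nat.lt_of_mul_lt_mul_left hlt
  have hmlt : m g < m g' := by
    by_contra h
    rcases Nat.lt_or_ge (m g') (m g) with h1 | h1
    · exact absurd hlt' (hord g' g i' i h1).not_gt
    · exact hg (hm (by omega))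
  refine ⟨i', i, g, g', hmlt, ?_⟩
  have h1 : b * A g' i' - b * A g i = b * ((m g' - m g) * t + P * D i' - P * D i) := by
    rw [← Nat.mul_sub]
    congr 1
    rw [hAe, hAe, Nat.sub_mul]
    have h3 : m g * t ≤ m g' * t := Nat.mul_le_mul_right _ hmlt.le
    omega
  have h2 : b * A g' i' - b * A g i ∈ GapB N a := hG
  rw [h1] at h2
  exact h2

/-- the progressions are special cases -/
theorem ap_of_gen {K P : ℕ} (hK : 1 ≤ K) (hP : 1 ≤ P) (m : Fin 4 → ℕ) (hPd : ∀ i j, m i < m j → (m j - m i) ∣ P)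
    (S : ℕ → Prop) (h : ∀ (t : ℕ) (D : Fin K → ℕ), Function.Injective D → (∀ i, P * D i < t) →
      ∃ x y i j, m i < m j ∧ S ((m j - m i) * t + P * D x - P * D y)) (t d : ℕ) (ht : 1 ≤ t) (hd : 1 ≤ d) :
    ∃ c < 2 * (P * K) + 1, ∃ i j, m i < m j ∧ S ((m j - m i) * (t + c * d)) := by
  obtain ⟨x, y, i, j, hij, hS⟩ := h (t + (P * K) * d) (fun i => (i : ℕ) * d) (fun i i' hii => by
      have h1 : (i : ℕ) * d = (i' : ℕ) * d := hii
      exact Fin.ext (Nat.eq_of_mul_eq_mul_right hd h1)) (fun i => by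
      have h1 : (i : ℕ) ≤ K := i.2.le
      calc P * ((i : ℕ) * d) ≤ P * (K * d) := by gcongr
        _ = (P * K) * d := by ring
        _ < t + (P * K) * d := by omega)
  obtain ⟨f, hf⟩ := hPd i j hij
  have hf0 : 1 ≤ f := by
    rcases Nat.eq_zero_or_pos f with h0 | h0
    · rw [h0, mul_zero] at hf
      omega
    · exact h0
  have hmf : f ≤ P := by
    rw [hf]
    exact Nat.le_mul_of_pos_left _ (by omega)
  have hx := x.2
  have hy := y.2
  have hfK : f * (y : ℕ) ≤ P * K := Nat.mul_le_mul hmf hy.le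
  have hfx : f * (x : ℕ) ≤ P * K := Nat.mul_le_mul hmf hx.le
  refine ⟨P * K + f * x - f * y, by omega, i, j, hij, ?_⟩
  have e : (m j - m i) * (t + (P * K) * d) + P * ((x : ℕ) * d) - P * ((y : ℕ) * d) =
      (m j - m i) * (t + (P * K + f * x - f * y) * d) := by
    obtain ⟨e, he⟩ : ∃ e, P * K + f * (x : ℕ) = f * y + e := ⟨_, (Nat.add_sub_cancel' (by omega)).symm⟩
    have e1 : P * K + f * (x : ℕ) - f * y = e := by omega
    rw [e1]
    obtain ⟨w, hw⟩ : ∃ w, w = m j - m i := ⟨_, rfl⟩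
    rw [← hw] at hf ⊢
    have e2 : w * (t + P * K * d) + P * ((x : ℕ) * d) = w * (t + e * d) + P * ((y : ℕ) * d) := by
      have e3 : P * ((x : ℕ) * d) = w * ((f * (x : ℕ)) * d) := by
        rw [hf]
        ring
      have e4 : P * ((y : ℕ) * d) = w * ((f * (y : ℕ)) * d) := by
        rw [hf]
        ring
      rw [e3, e4, ← mul_add, ← mul_add]
      congr 1
      calc t + P * K * d + f * (x : ℕ) * d = t + (P * K + f * (x : ℕ)) * d := by ring
        _ = t + (f * y + e) * d := by rw [he]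
        _ = _ := by ring
    rw [e2]
    omega
  rw [← e]
  exact hS

/-- `N d` is, for every `η > 0` and arbitrarily large `x`, the gap `p_(l+1) - p_l` for at least
`x ^ (1 - η)` of the `l` with `p_l ≤ x` and `p_l ≡ a (mod N)`. -/
theorem genIsGap (m : Fin 4 → ℕ) (hm : Function.Injective m) :
    ∃ K P : ℕ, 1 ≤ K ∧ 1 ≤ P ∧ (∀ i j, m i < m j → (m j - m i) ∣ P) ∧
    ∀ N a : ℕ, Squarefree N → 2 ∣ N → a.Coprime N → ∀ b : ℕ, 1 ≤ b →
    (∀ p : ℕ, p.Prime → ¬ p ∣ N → ∃ r : ℤ, ∀ i, ¬ (p : ℤ) ∣ b * m i + r) →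
    ∀ (t : ℕ) (D : Fin K → ℕ), Function.Injective D → (∀ i, P * D i < t) →
    ∃ x y i j, m i < m j ∧ IsGap N a (b * ((m j - m i) * t + P * D x - P * D y)) := by
  obtain ⟨K, P, hK, hP, hPd, h⟩ := genGap (Pool.Agent.W473.UBCB.main Pool.Agent.W25.UB.thmVG) m hm
  refine ⟨K, P, hK, hP, hPd, fun N a hsq h2 ha b hb hadm t D hD hDt => ?_⟩
  obtain ⟨x, y, i, j, hij, hG⟩ := h N a (Nat.pos_of_ne_zero hsq.ne_zero) h2 hsq ha b hb hadm t D hD hDt
  exact ⟨x, y, i, j, hij, fun η hη => nthB hG η hη⟩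

theorem apIsGap (m : Fin 4 → ℕ) (hm : Function.Injective m) :
    ∃ C : ℕ, 1 ≤ C ∧ ∀ N a : ℕ, Squarefree N → 2 ∣ N → a.Coprime N → ∀ b : ℕ, 1 ≤ b →
    (∀ p : ℕ, p.Prime → ¬ p ∣ N → ∃ r : ℤ, ∀ i, ¬ (p : ℤ) ∣ b * m i + r) →
    ∀ t d : ℕ, 1 ≤ t → 1 ≤ d →
    ∃ c < C, ∃ i j, m i < m j ∧ IsGap N a (b * ((m j - m i) * (t + c * d))) := by
  obtain ⟨K, P, hK, hP, hPd, h⟩ := genIsGap m hm
  refine ⟨2 * (P * K) + 1, by omega, fun N a hsq h2 ha b hb hadm t d ht hd => ?_⟩
  exact ap_of_gen hK hP m hPd (fun n => IsGap N a (b * n)) (h N a hsq h2 ha b hb hadm) t d ht hd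

end Pool.Agent.Zk77.AP
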