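import Pool.Agent.Y877.RecB

/-!
# Progressions of multipliers up to the record scale (helper77)

The multipliers `k` for which the graph of the good pairs `{i, j}` (those with `b |m i - m j| k` equal to many gaps of
primes of `(X, 4 X]`) is a given graph without a large component contain no progression of `L` terms: otherwise the
numbers `m g t₀ + P e i` would form `T` classes of shifts to which the theorem on primes in record windows applies.
After `Pool.Agent.Y877.RecB`.
-/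

set_option autoImplicit false

namespace Pool.Agent.Zk77.AP

open Finset Filter Topology
open Pool.Agent.H256R2.SC (ff)
open Pool.Agent.H362R2.RQ (fib)
open Pool.Agent.Y877

/-- the shifts from a progression -/
theorem apShifts (T K : ℕ) (hT : 1 ≤ T) (hK : 1 ≤ K) (m : Fin T → ℕ) (hm : Function.Injective m) :
    ∃ C : ℕ, 1 ≤ C ∧ ∀ u e : ℕ, 1 ≤ u → 1 ≤ e →
    ∃ A : Fin T → Fin K → ℕ, (Function.Injective (fun z : Fin T × Fin K => A z.1 z.2)) ∧
      (∀ g i, A g i ≤ C * (u + e)) ∧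
      (∀ g g' i j, g ≠ g' → ∃ c < C, (A g i : ℤ) - A g' j = ((m g : ℤ) - m g') * ((u + c * e : ℕ) : ℤ)) ∧
      ∃ (r : Fin T → ℕ) (k : ℕ), (∀ g i, A g i % (T * K).factorial = r g) ∧
        ∀ g i, (T.factorial : ℤ) ∣ (A g i : ℤ) - m g * k := by
  obtain ⟨P, hP⟩ : ∃ P : ℕ, P = (T * K).factorial * (∑ g, m g).factorial := ⟨_, rfl⟩
  have hP1 : 1 ≤ P := by
    rw [hP]
    exact Nat.mul_pos (Nat.factorial_pos _) (Nat.factorial_pos _)
  have hWP : (T * K).factorial ∣ P := by
    rw [hP]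
    exact dvd_mul_right _ _
  -- the differences divide `P`
  have hdv : ∀ g g' : Fin T, g ≠ g' → ((m g : ℤ) - m g') ∣ (P : ℤ) := by
    have key : ∀ g g' : Fin T, m g < m g' → (((m g' : ℤ) - m g)) ∣ (P : ℤ) := by
      intro g g' hlt
      have e1 : ((m g' : ℤ) - m g) = ((m g' - m g : ℕ) : ℤ) := by rw [Nat.cast_sub hlt.le]
      rw [e1]
      have h2 : m g' ≤ ∑ g, m g := single_le_sum (f := m) (fun _ _ => Nat.zero_le _) (mem_univ g')
      have h3 : (m g' - m g) ∣ P := by
        rw [hP]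
        exact (Nat.dvd_factorial (by omega) (by omega)).mul_left _
      exact_mod_cast h3
    intro g g' h
    rcases lt_or_gt_of_ne (fun hh => h (hm hh) : m g ≠ m g') with hlt | hlt
    · have h1 := key g g' hlt
      rw [← neg_sub, neg_dvd]
      exact h1
    · exact key g' g hlt
  refine ⟨(∑ g, m g) * (P * K + 1) + P * K + 2 * (P * K) + 1, by omega, fun u e hu he => ?_⟩
  obtain ⟨t0, ht0⟩ : ∃ t0 : ℕ, t0 = u + (P * K) * e := ⟨_, rfl⟩
  obtain ⟨A, hA⟩ : ∃ A : Fin T → Fin K → ℕ, A = fun g (i : Fin K) => m g * t0 + P * e * (i : ℕ) := ⟨_, rfl⟩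
  have hAe : ∀ g i, A g i = m g * t0 + P * e * (i : ℕ) := fun g i => by rw [hA]
  have hdiff : ∀ g g' (i i' : Fin K), g ≠ g' → ∃ c < (∑ g, m g) * (P * K + 1) + P * K + 2 * (P * K) + 1,
      (A g i : ℤ) - A g' i' = ((m g : ℤ) - m g') * ((u + c * e : ℕ) : ℤ) := by
    intro g g' i i' hgg
    obtain ⟨f, hPe⟩ := hdv g g' hgg
    have hm0 : ((m g : ℤ) - m g') ≠ 0 := by
      intro h0
      exact hgg (hm (by exact_mod_cast sub_eq_zero.1 h0))
    have hfa : |f| ≤ P := by
      have h1 : |(P : ℤ)| = |((m g : ℤ) - m g')| * |f| := by rw [hPe, abs_mul]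
      rw [abs_of_nonneg (Nat.cast_nonneg P)] at h1
      have h2 : 1 ≤ |((m g : ℤ) - m g')| := Int.one_le_abs hm0
      have h3 : 0 ≤ |f| := abs_nonneg f
      nlinarith
    have hi1 := i.2
    have hi2 := i'.2
    have hia : |((i : ℕ) : ℤ) - ((i' : ℕ) : ℤ)| ≤ K := by
      rw [abs_le]
      constructor <;> omega
    obtain ⟨q, hq⟩ : ∃ q : ℤ, q = f * (((i : ℕ) : ℤ) - ((i' : ℕ) : ℤ)) := ⟨_, rfl⟩
    have hqa : |q| ≤ P * K := by
      rw [hq, abs_mul]
      exact mul_le_mul hfa hia (abs_nonneg _) (Nat.cast_nonneg _)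
    have hqb := abs_le.1 hqa
    refine ⟨(P * K + q).toNat, ?_, ?_⟩
    · have h1 : ((P * K + q).toNat : ℤ) < 2 * (P * K) + 1 := by
        rw [Int.toNat_of_nonneg (by linarith [hqb.1])]
        linarith [hqb.2]
      have h2 : (P * K + q).toNat < 2 * (P * K) + 1 := by exact_mod_cast h1
      omega
    · have e1 : (((P * K + q).toNat : ℕ) : ℤ) = P * K + q := Int.toNat_of_nonneg (by linarith [hqb.1])
      have e2 : ((u + (P * K + q).toNat * e : ℕ) : ℤ) = u + (P * K + q) * e := by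
        push_cast
        rw [e1]
      rw [e2, hAe, hAe, ht0, hq]
      push_cast
      linear_combination (e : ℤ) * (((i : ℕ) : ℤ) - ((i' : ℕ) : ℤ)) * hPe
  refine ⟨A, ?_, fun g i => ?_, hdiff, ?_⟩
  · rintro ⟨g, i⟩ ⟨g', i'⟩ h
    have h' : A g i = A g' i' := h
    by_cases hgg : g = g'
    · subst hgg
      rw [hAe, hAe] at h'
      have h1 : P * e * (i : ℕ) = P * e * (i' : ℕ) := by omega
      have h2 : (i : ℕ) = i' := Nat.eq_of_mul_eq_mul_left (Nat.mul_pos hP1 he) h1
      rw [Fin.ext h2]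
    · obtain ⟨c, -, hc⟩ := hdiff g g' i i' hgg
      rw [h', sub_self] at hc
      rcases mul_eq_zero.1 hc.symm with h3 | h3
      · exact absurd (hm (by exact_mod_cast sub_eq_zero.1 h3)) hgg
      · have : u + c * e = 0 := by exact_mod_cast h3
        omega
  · rw [hAe, ht0]
    have h2 : m g ≤ ∑ g, m g := single_le_sum (f := m) (fun _ _ => Nat.zero_le _) (mem_univ g)
    have h3 : (i : ℕ) ≤ K := i.2.le
    have h4 : u + P * K * e ≤ (P * K + 1) * (u + e) := by
      linarith [Nat.zero_le (P * K * u), Nat.zero_le e]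
    calc m g * (u + P * K * e) + P * e * (i : ℕ) ≤
          (∑ g, m g) * ((P * K + 1) * (u + e)) + P * e * K := by gcongr
      _ ≤ (∑ g, m g) * ((P * K + 1) * (u + e)) + P * K * (u + e) := by
          have : P * e * K ≤ P * K * (u + e) := by nlinarith [Nat.zero_le (P * K * u)]
          omega
      _ = ((∑ g, m g) * (P * K + 1) + P * K) * (u + e) := by ring
      _ ≤ _ := Nat.mul_le_mul_right _ (by omega)
  · refine ⟨fun g => (m g * t0) % (T * K).factorial, t0, fun g i => ?_, fun g i => ?_⟩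
    · rw [hAe, Nat.add_mod, Nat.mod_eq_zero_of_dvd (((hWP.mul_right e)).mul_right _), add_zero,
        Nat.mod_mod]
    · have e1 : (A g i : ℤ) - m g * t0 = ((P * e * (i : ℕ) : ℕ) : ℤ) := by
        rw [hAe]
        push_cast
        ring
      rw [e1]
      have h4 : Nat.factorial T ∣ P :=
        (Nat.factorial_dvd_factorial (Nat.le_mul_of_pos_right _ hK)).trans hWP
      exact_mod_cast (h4.mul_right e).mul_right _

open Classical in
/-- **The progressions of multipliers with a given graph.** -/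
theorem recAP : ∃ η : ℝ, 0 < η ∧ ∀ T : ℕ, 1 ≤ T → ∀ m : Fin T → ℕ, Function.Injective m →
    ∀ d : ℕ, Squarefree d →
    ∃ C : ℕ, 1 ≤ C ∧ ∀ᶠ X : ℝ in atTop, ∀ a b : ℕ, a.Coprime d → 1 ≤ b → d ∣ b →
    (∀ p : ℕ, p.Prime → ∃ r : ℤ, ∀ i, ¬ (p : ℤ) ∣ b * m i + r) →
    ∀ G : Finset (Fin T × Fin T),
    (∀ S : Finset (Fin T), η * T ≤ S.card → ¬ Linked S (fun i j => (i, j) ∈ G)) →
    ∀ u e : ℕ, 1 ≤ u → 1 ≤ e → ((C * (b * (u + e)) : ℕ) : ℝ) ≤ ff X →
    ∃ c < C, ¬ ∀ i j, (i, j) ∈ G ↔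
      X ^ (6 / 7 : ℝ) ≤ gapCount X d a (b * (Nat.dist (m i) (m j) * (u + c * e))) := by
  obtain ⟨η, hη, HM⟩ := Pool.Agent.TH101.RG.tuple_multiples
  refine ⟨η, hη, fun T hT m hm d hd => ?_⟩
  obtain ⟨K, hTK, HM⟩ := HM T hT
  obtain ⟨c, hc, HM⟩ := HM 1 1 1 d hd
  have hK : 1 ≤ K := hT.trans hTK
  obtain ⟨C₁, hC₁, HB⟩ := apShifts T K hT hK m hm
  obtain ⟨R, hR⟩ := exists_nat_ge (C₁ / c)
  have hRc : (C₁ : ℝ) ≤ c * R := by
    rw [div_le_iff₀ hc] at hR
    linarith
  refine ⟨C₁ + R, by omega, ?_⟩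
  have hpow : ∀ᶠ X : ℝ in atTop, (K : ℝ) ^ 2 * X ^ (6 / 7 : ℝ) ≤ X ^ (7 / 8 : ℝ) := by
    filter_upwards [(tendsto_rpow_atTop (by norm_num : (0 : ℝ) < 1 / 56)).eventually_ge_atTop ((K : ℝ) ^ 2),
      eventually_gt_atTop (0 : ℝ)] with X h1 h2
    calc (K : ℝ) ^ 2 * X ^ (6 / 7 : ℝ) ≤ X ^ (1 / 56 : ℝ) * X ^ (6 / 7 : ℝ) :=
          mul_le_mul_of_nonneg_right h1 (Real.rpow_nonneg h2.le _)
      _ = X ^ (7 / 8 : ℝ) := by
          rw [← Real.rpow_add h2]
          norm_num
  filter_upwards [HM, Pool.Agent.H312R2.RG.ev_ff c hc, hpow, eventually_ge_atTop (1 : ℝ),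
    Real.tendsto_log_atTop.eventually_ge_atTop (1 : ℝ)] with X hX hff hXp hX1 hXl a b ha hb hdb hbadm G hbadG
      u e hu he hHX
  by_contra hcon
  push Not at hcon
  obtain ⟨Good, hGood⟩ : ∃ Good : ℕ → Prop, Good = fun g => X ^ (6 / 7 : ℝ) ≤ gapCount X d a (b * g) :=
    ⟨_, rfl⟩
  have hGr : ∀ c < C₁ + R, ∀ i j, (i, j) ∈ G ↔ Good (Nat.dist (m i) (m j) * (u + c * e)) := by
    intro c hc i j
    rw [hGood]
    exact hcon c hc i j
  obtain ⟨A, hinj, hAle, hAd, r, k₀, hr, hk₀⟩ := HB u e hu he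
  -- the tuple
  obtain ⟨t, ht⟩ : ∃ t : Fin K → ℕ, ∀ j, t j = b * A (clz T hT j) j := ⟨fun j => b * A (clz T hT j) j, fun _ => rfl⟩
  have htinj : Function.Injective t := by
    intro j j' h
    rw [ht, ht] at h
    exact clz_inj T hT A hinj (Nat.eq_of_mul_eq_mul_left (by omega : 0 < b) h)
  have htff : ∀ j, (t j : ℝ) ≤ c * ff X := by
    intro j
    have h1 : t j ≤ C₁ * (b * (u + e)) := by
      rw [ht]
      calc b * A (clz T hT j) j ≤ b * (C₁ * (u + e)) := Nat.mul_le_mul_left _ (hAle _ _)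
        _ = C₁ * (b * (u + e)) := by ring
    have h2 : (t j : ℝ) ≤ C₁ * ((b * (u + e) : ℕ) : ℝ) := by exact_mod_cast h1
    have h3 : ((R * (b * (u + e)) : ℕ) : ℝ) ≤ ff X := by
      refine le_trans ?_ hHX
      exact_mod_cast Nat.mul_le_mul_right _ (by omega : R ≤ C₁ + R)
    have h4 : (C₁ : ℝ) * ((b * (u + e) : ℕ) : ℝ) ≤ c * R * ((b * (u + e) : ℕ) : ℝ) :=
      mul_le_mul_of_nonneg_right hRc (Nat.cast_nonneg _)
    have h5 : c * (R : ℝ) * ((b * (u + e) : ℕ) : ℝ) = c * ((R * (b * (u + e)) : ℕ) : ℝ) := by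
      push_cast; ring
    have h6 : c * ((R * (b * (u + e)) : ℕ) : ℝ) ≤ c * ff X := mul_le_mul_of_nonneg_left h3 hc.le
    linarith
  have hadm : ∀ p : ℕ, p.Prime → ∃ v : ℕ, ∀ j, ¬ p ∣ v + t j := by
    intro p hp
    obtain ⟨n, hn⟩ := admT T K b m p hp (hbadm p hp) A r k₀ hr hk₀
    have hp0 : (p : ℤ) ≠ 0 := by exact_mod_cast hp.ne_zero
    refine ⟨(n % p).toNat, fun j h => hn (clz T hT j) j ?_⟩
    have h1 : ((n % p).toNat : ℤ) = n % p := Int.toNat_of_nonneg (Int.emod_nonneg _ hp0)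
    have h2 : (p : ℤ) ∣ ((n % p).toNat : ℤ) + t j := by exact_mod_cast h
    rw [h1, ht] at h2
    have h3 : ((b * A (clz T hT j) j : ℕ) : ℤ) + n = (n % p + ((b * A (clz T hT j) j : ℕ) : ℤ)) + (n - n % p) := by ring
    rw [h3]
    exact dvd_add h2 (Int.dvd_self_sub_emod)
  have htd : ∀ j, d ∣ t j := fun j => by
    rw [ht]
    exact hdb.mul_right _
  obtain ⟨bad, hbadc, hbad⟩ := bad_set X (by linarith) d a t
  obtain ⟨n, hXn, hn3, hnb, hnd, ⟨E, hE1, hE2⟩, hiso⟩ := hX 1 0 one_ne_zero (by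
      rw [pow_one]
      simpa using hXl)
    (by simp) (by
      rw [pow_one]
      simp only [Int.cast_zero, abs_zero]
      linarith) t htinj (fun j => (htff j).trans hff.1) hadm a (fun j => by
      obtain ⟨e, he⟩ := htd j
      rw [he]
      have h1 : Nat.Coprime (a + d * e) d := by
        rw [Nat.coprime_add_mul_left_left]
        exact ha
      exact h1)
    (clz T hT) (fun e => clz_card T K hT hTK e) bad (hbadc.trans hXp)
  have hiso' : ∀ q : ℕ, q.Prime → n ≤ q → (q : ℝ) ≤ n + c * ff X → ∃ l, q = n + t l := by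
    intro q hq hnq hqn
    refine hiso 1 1 (by simp) (by simp) (by simp) (by simp) q hq ?_
    have h1 : ((1 * (q : ℤ) - 1 * (1 * (n : ℤ) + 0) : ℤ) : ℝ) = (q : ℝ) - n := by push_cast; ring
    have h2 : (n : ℝ) ≤ q := by exact_mod_cast hnq
    rw [h1, abs_of_nonneg (by linarith)]
    linarith
  -- the hits
  obtain ⟨P, hP⟩ : ∃ P : Finset (Fin K), ∀ j, j ∈ P ↔ (n + t j).Prime :=
    ⟨univ.filter (fun j => (n + t j).Prime), fun j => by
      rw [mem_filter]; exact ⟨fun h => h.2, fun h => ⟨mem_univ _, h⟩⟩⟩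
  have hlink : Linked (P.image (clz T hT)) (fun i j => (i, j) ∈ G) := by
    refine linked_of_path t htinj P (clz T hT) _ (fun x y hxy => ?_) (fun w hw z hz hwz hcons hne => ?_)
    · -- symmetry
      have h2 : (x, y) ∈ G := hxy
      show (y, x) ∈ G
      rw [hGr 0 (by omega)] at h2 ⊢
      rw [Nat.dist_comm]
      exact h2
    · show (clz T hT w, clz T hT z) ∈ G
      have hg : n + t w ∈ gset X d a (t z - t w) := by
        rw [mem_gset]
        have e1 : n + t w + (t z - t w) = n + t z := by omega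
        have hw0 : (0 : ℝ) ≤ t w := Nat.cast_nonneg _
        have h1 : (t w : ℝ) ≤ X := by
          have h2 := htff w
          have h3 := hff.2.2
          have h4 : 0 ≤ c * ff X := mul_nonneg hc.le hff.2.1
          linarith
        refine ⟨by push_cast; linarith, by push_cast; linarith, ?_, (hP w).1 hw, ?_, ?_⟩
        · have h5 : t w ≡ 0 [MOD d] := (Nat.modEq_zero_iff_dvd).2 (htd w)
          have h6 := hnd.add h5
          rw [add_zero] at h6
          exact h6
        · rw [e1]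
          exact (hP z).1 hz
        · intro q hq1 hq2 hqp
          rw [e1] at hq2
          obtain ⟨l, hl⟩ := hiso' q hqp (by omega) (by
            have h2 : (q : ℝ) ≤ ((n + t z : ℕ) : ℝ) := by exact_mod_cast hq2.le
            push_cast at h2
            have h3 := htff z
            linarith)
          rw [hl] at hq1 hq2 hqp
          have h2 := hcons l ((hP l).2 hqp) (by omega)
          omega
      have hgood := hbad n w z hnb hg
      obtain ⟨k', hk', hke⟩ := hAd (clz T hT z) (clz T hT w) z w (fun h => hne h.symm)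
      obtain ⟨k, hkd⟩ : ∃ k, k = u + k' * e := ⟨_, rfl⟩
      rw [← hkd] at hke
      rw [hGr k' (by omega), ← hkd, hGood]
      show X ^ (6 / 7 : ℝ) ≤ gapCount X d a (b * (Nat.dist (m (clz T hT w)) (m (clz T hT z)) * k))
      have hlt' : A (clz T hT w) w < A (clz T hT z) z := by
        rw [ht, ht] at hwz
        exact Nat.lt_of_mul_lt_mul_left hwz
      have hmlt : m (clz T hT w) < m (clz T hT z) := by
        by_contra h
        push Not at h
        have h1 : ((m (clz T hT z) : ℤ) - m (clz T hT w)) * k ≤ 0 :=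
          mul_nonpos_of_nonpos_of_nonneg (by
            have : (m (clz T hT z) : ℤ) ≤ m (clz T hT w) := by exact_mod_cast h
            linarith) (Nat.cast_nonneg _)
        have h2 : (A (clz T hT w) w : ℤ) < A (clz T hT z) z := by exact_mod_cast hlt'
        linarith
      have h1 : t z - t w = b * (Nat.dist (m (clz T hT w)) (m (clz T hT z)) * k) := by
        rw [ht, ht, ← Nat.mul_sub, Nat.dist_eq_sub_of_le hmlt.le]
        congr 1
        have h3 : ((A (clz T hT z) z - A (clz T hT w) w : ℕ) : ℤ) =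
            (((m (clz T hT z) - m (clz T hT w)) * k : ℕ) : ℤ) := by
          rw [Nat.cast_sub hlt'.le]
          push_cast
          rw [Nat.cast_sub hmlt.le]
          exact hke
        exact_mod_cast h3
      rw [← h1]
      exact hgood
  have hcard : η * T ≤ ((P.image (clz T hT)).card : ℝ) := by
    refine hE1.trans ?_
    rw [Nat.cast_le]
    apply card_le_card
    intro e he
    obtain ⟨j, hj1, hj2⟩ := hE2 e he
    exact mem_image.2 ⟨j, (hP j).2 hj2, hj1⟩
  exact hbadG _ hcard hlink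

end Pool.Agent.Zk77.AP
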