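import Pool.Agent.Zk77.AP.Rec
import Pool.Agent.Zk77.AP.Bas

/-!
# The bad multipliers up to the record scale contain no monochromatic progressions (helper77)
-/

set_option autoImplicit false

namespace Pool.Agent.Zk77.AP

open Finset Filter Topology
open Pool.Agent.H256R2.SC (ff)
open Pool.Agent.Y877

/-- the graph of the multiplier `k` has a large component -/
def GoodR {T : ℕ} (η : ℝ) (m : Fin T → ℕ) (X : ℝ) (d a b k : ℕ) : Prop :=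
  ∃ S : Finset (Fin T), η * T ≤ S.card ∧
    Linked S (fun i j => X ^ (6 / 7 : ℝ) ≤ gapCount X d a (b * (Nat.dist (m i) (m j) * k)))

open Classical in
/-- the graph of the multiplier `k` -/
noncomputable def grR {T : ℕ} (m : Fin T → ℕ) (X : ℝ) (d a b k : ℕ) : Finset (Fin T × Fin T) :=
  univ.filter (fun p => X ^ (6 / 7 : ℝ) ≤ gapCount X d a (b * (Nat.dist (m p.1) (m p.2) * k)))

theorem recFree : ∃ η : ℝ, 0 < η ∧ ∀ T : ℕ, 1 ≤ T → ∀ m : Fin T → ℕ, Function.Injective m →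
    ∀ d : ℕ, Squarefree d →
    ∃ C : ℕ, 2 ≤ C ∧ ∃ X₀ : ℝ, ∀ X : ℝ, X₀ ≤ X → ∀ a b : ℕ, a.Coprime d → 1 ≤ b → d ∣ b →
    (∀ p : ℕ, p.Prime → ∃ r : ℤ, ∀ i, ¬ (p : ℤ) ∣ b * m i + r) →
    ∀ R₀ : ℕ, ((C * (b * R₀) : ℕ) : ℝ) ≤ ff X →
    Free C R₀ (fun k => ¬ GoodR η m X d a b k) (grR m X d a b) := by
  obtain ⟨η, hη, h⟩ := recAP
  refine ⟨η, hη, fun T hT m hm d hd => ?_⟩
  obtain ⟨C, hC, h⟩ := h T hT m hm d hd
  obtain ⟨X₀, h⟩ := eventually_atTop.1 h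
  refine ⟨C + 1, by omega, X₀, fun X hX a b ha hb hdb hadm R₀ hR => ?_⟩
  intro u e hu he hue G
  have hmem : ∀ k i j, (i, j) ∈ grR m X d a b k ↔
      X ^ (6 / 7 : ℝ) ≤ gapCount X d a (b * (Nat.dist (m i) (m j) * k)) := by
    intro k i j
    unfold grR
    rw [mem_filter]
    exact ⟨fun h => h.2, fun h => ⟨mem_univ _, h⟩⟩
  by_cases hG : ∀ S : Finset (Fin T), η * T ≤ S.card → ¬ Linked S (fun i j => (i, j) ∈ G)
  · obtain ⟨c, hc, hcn⟩ := h X hX a b ha hb hdb hadm G hG u e hu he (by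
      refine le_trans ?_ hR
      rw [Nat.cast_le]
      exact Nat.mul_le_mul (by omega) (Nat.mul_le_mul_left _ hue))
    refine ⟨c, by omega, fun hcon => hcn fun i j => ?_⟩
    rw [← hcon.2]
    exact hmem _ i j
  · push Not at hG
    obtain ⟨S, hS, hL⟩ := hG
    refine ⟨0, by omega, fun hcon => hcon.1 ⟨S, hS, ?_⟩⟩
    intro i hi j hj
    refine Relation.ReflTransGen.mono ?_ i j (hL i hi j hj)
    intro x y hxy
    refine ⟨hxy.1, hxy.2.1, ?_⟩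
    have h2 : (x, y) ∈ G := hxy.2.2
    rw [← hcon.2] at h2
    exact (hmem _ x y).1 h2

/-- several scales and classes -/
theorem recFreeN : ∃ η : ℝ, 0 < η ∧ ∀ T : ℕ, 1 ≤ T → ∀ m : Fin T → ℕ, Function.Injective m →
    ∀ d : ℕ, Squarefree d →
    ∃ C : ℕ, 2 ≤ C ∧ ∃ X₀ : ℝ, ∀ (n : ℕ) (X : Fin n → ℝ), (∀ ρ, X₀ ≤ X ρ) → ∀ a b : Fin n → ℕ,
    (∀ ρ, (a ρ).Coprime d) → (∀ ρ, 1 ≤ b ρ) → (∀ ρ, d ∣ b ρ) →
    (∀ ρ, ∀ p : ℕ, p.Prime → ∃ r : ℤ, ∀ i, ¬ (p : ℤ) ∣ b ρ * m i + r) →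
    ∀ R₀ : ℕ, (∀ ρ, ((C * (b ρ * R₀) : ℕ) : ℝ) ≤ ff (X ρ)) →
    ∃ col : ℕ → Option (Fin n × Finset (Fin T × Fin T)),
      Free C R₀ (fun k => ∃ ρ, ¬ GoodR η m (X ρ) d (a ρ) (b ρ) k) col := by
  obtain ⟨η, hη, h⟩ := recFree
  refine ⟨η, hη, fun T hT m hm d hd => ?_⟩
  obtain ⟨C, hC, X₀, h⟩ := h T hT m hm d hd
  refine ⟨C, hC, X₀, fun n X hX a b ha hb hdb hadm R₀ hR => ?_⟩
  exact free_ex (by omega) (fun ρ k => ¬ GoodR η m (X ρ) d (a ρ) (b ρ) k)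
    (fun ρ k => grR m (X ρ) d (a ρ) (b ρ) k)
    (fun ρ => h (X ρ) (hX ρ) (a ρ) (b ρ) (ha ρ) (hb ρ) (hdb ρ) (hadm ρ) R₀ (hR ρ))

end Pool.Agent.Zk77.AP
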