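import Pool.Agent.Zk77.AP.RecF
import Pool.Agent.Zk77.AP.UseH

/-!
# Record scale: progressions and sums of digits (helper77)
-/

set_option autoImplicit false

namespace Pool.Agent.Zk77.AP

open Finset Filter Topology
open Pool.Agent.H256R2.SC (ff)
open Pool.Agent.Y877

theorem recEvery : ∃ η : ℝ, 0 < η ∧ ∀ T : ℕ, 1 ≤ T → ∀ m : Fin T → ℕ, Function.Injective m →
    ∀ d : ℕ, Squarefree d → ∀ n : ℕ,
    ∃ (L : ℕ) (X₀ : ℝ), ∀ X : Fin n → ℝ, (∀ ρ, X₀ ≤ X ρ) → ∀ a b : Fin n → ℕ,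
    (∀ ρ, (a ρ).Coprime d) → (∀ ρ, 1 ≤ b ρ) → (∀ ρ, d ∣ b ρ) →
    (∀ ρ, ∀ p : ℕ, p.Prime → ∃ r : ℤ, ∀ i, ¬ (p : ℤ) ∣ b ρ * m i + r) →
    ∀ t e : ℕ, 1 ≤ t → 1 ≤ e → (∀ ρ, ((L * (b ρ * (t + e)) : ℕ) : ℝ) ≤ ff (X ρ)) →
    ∃ c < L, ∀ ρ, GoodR η m (X ρ) d (a ρ) (b ρ) (t + c * e) := by
  obtain ⟨η, hη, h⟩ := recFreeN
  refine ⟨η, hη, fun T hT m hm d hd n => ?_⟩
  obtain ⟨C, hC, X₀, h⟩ := h T hT m hm d hd
  obtain ⟨L, hL, h1⟩ := everyAP (κ := Option (Fin n × Finset (Fin T × Fin T))) C (by omega)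
  refine ⟨C * L, X₀, fun X hX a b ha hb hdb hadm t e ht he hR => ?_⟩
  obtain ⟨col, hF⟩ := h n X hX a b ha hb hdb hadm (L * (t + e)) (fun ρ => by
    refine le_trans ?_ (hR ρ)
    rw [Nat.cast_le]
    exact le_of_eq (by ring))
  obtain ⟨c, hc, hc1⟩ := h1 _ col _ hF t e ht he le_rfl
  refine ⟨c, lt_of_lt_of_le hc (Nat.le_mul_of_pos_left _ (by omega)), fun ρ => ?_⟩
  by_contra hcon
  exact hc1 ⟨ρ, hcon⟩

open Classical in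
theorem recDigits : ∃ η : ℝ, 0 < η ∧ ∀ T : ℕ, 1 ≤ T → ∀ m : Fin T → ℕ, Function.Injective m →
    ∀ d : ℕ, Squarefree d → ∃ (C : ℕ) (X₀ : ℝ), ∀ n r : ℕ, C ≤ r → ∀ ε : ℝ, 0 < ε → ∃ h₀ : ℕ, ∀ h : ℕ, h₀ ≤ h →
    ∀ X : Fin n → ℝ, (∀ ρ, X₀ ≤ X ρ) → ∀ a b : Fin n → ℕ,
    (∀ ρ, (a ρ).Coprime d) → (∀ ρ, 1 ≤ b ρ) → (∀ ρ, d ∣ b ρ) →
    (∀ ρ, ∀ p : ℕ, p.Prime → ∃ r : ℤ, ∀ i, ¬ (p : ℤ) ∣ b ρ * m i + r) →
    ∀ w : ℕ, 1 ≤ w → ∀ D : Fin h → Finset ℕ, (∀ l, (D l).card = r) →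
    (∀ l, ∃ u e : ℕ, 1 ≤ e ∧ ∀ c < C, u + c * e ∈ D l) →
    (∀ ρ, ∀ x ∈ Fintype.piFinset D, ((C * (b ρ * (w + ∑ l, x l)) : ℕ) : ℝ) ≤ ff (X ρ)) →
    (1 - ε) * (r : ℝ) ^ h ≤ (((Fintype.piFinset D).filter (fun x => ∀ ρ,
      GoodR η m (X ρ) d (a ρ) (b ρ) (w + ∑ l, x l))).card : ℝ) := by
  obtain ⟨η, hη, hh⟩ := recFreeN
  refine ⟨η, hη, fun T hT m hm d hd => ?_⟩
  obtain ⟨C, hC, X₀, hh⟩ := hh T hT m hm d hd
  refine ⟨2 * C, X₀, fun n r hr ε hε => ?_⟩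
  obtain ⟨h₀, h1⟩ := digits (κ := Option (Fin n × Finset (Fin T × Fin T))) C r (by omega) (by omega) ε hε
  refine ⟨h₀, fun h hn X hX a b ha hb hdb hadm w hw D hDr hDC hR => ?_⟩
  obtain ⟨B, hBdef⟩ : ∃ B : ℕ, B = (Fintype.piFinset D).sup (fun x => w + 2 * ∑ l, x l) := ⟨_, rfl⟩
  have hB : ∀ x ∈ Fintype.piFinset D, w + 2 * ∑ l, x l ≤ B := fun x hx => by
    rw [hBdef]
    exact Finset.le_sup (f := fun x : Fin h → ℕ => w + 2 * ∑ l, x l) hx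
  have hne : (Fintype.piFinset D).Nonempty := by
    rw [Fintype.piFinset_nonempty]
    intro l
    rw [← card_pos, hDr]
    omega
  obtain ⟨z, hz, hzB⟩ := Finset.exists_mem_eq_sup (Fintype.piFinset D) hne (fun x => w + 2 * ∑ l, x l)
  obtain ⟨col, hF⟩ := hh n X hX a b ha hb hdb hadm B (fun ρ => by
    refine le_trans ?_ (hR ρ z hz)
    rw [Nat.cast_le, hBdef, hzB]
    have h2 : w + 2 * ∑ l, z l ≤ 2 * (w + ∑ l, z l) := by omega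
    calc C * (b ρ * (w + 2 * ∑ l, z l)) ≤ C * (b ρ * (2 * (w + ∑ l, z l))) :=
          Nat.mul_le_mul_left _ (Nat.mul_le_mul_left _ h2)
      _ = 2 * C * (b ρ * (w + ∑ l, z l)) := by ring)
  have h3 := h1 h hn _ col B hF w D hw hDr (fun l => by
    obtain ⟨u, e, he, hue⟩ := hDC l
    exact ⟨u, e, he, fun c hc => hue c (by omega)⟩) hB hC
  have h4 := card_filter_add_card_filter_not (s := Fintype.piFinset D)
    (fun x : Fin h → ℕ => ∃ ρ, ¬ GoodR η m (X ρ) d (a ρ) (b ρ) (w + ∑ l, x l))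
  rw [Fintype.card_piFinset, prod_congr rfl fun l _ => hDr l, prod_const, card_univ, Fintype.card_fin] at h4
  have h5 : ((((Fintype.piFinset D).filter (fun x : Fin h → ℕ => ∃ ρ,
      ¬ GoodR η m (X ρ) d (a ρ) (b ρ) (w + ∑ l, x l))).card : ℕ) : ℝ) +
      (((Fintype.piFinset D).filter (fun x : Fin h → ℕ => ¬ ∃ ρ,
      ¬ GoodR η m (X ρ) d (a ρ) (b ρ) (w + ∑ l, x l))).card : ℝ) = (r : ℝ) ^ h := by
    exact_mod_cast h4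
  have h6 : (Fintype.piFinset D).filter (fun x : Fin h → ℕ => ¬ ∃ ρ,
      ¬ GoodR η m (X ρ) d (a ρ) (b ρ) (w + ∑ l, x l)) =
      (Fintype.piFinset D).filter (fun x => ∀ ρ, GoodR η m (X ρ) d (a ρ) (b ρ) (w + ∑ l, x l)) := by
    refine filter_congr fun x _ => ?_
    push Not
    rfl
  rw [h6] at h5
  have h7 : ((((Fintype.piFinset D).filter (fun x : Fin h → ℕ => ∃ ρ,
      ¬ GoodR η m (X ρ) d (a ρ) (b ρ) (w + ∑ l, x l))).card : ℕ) : ℝ) ≤ ε * (r : ℝ) ^ h := by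
    convert h3
  linarith

end Pool.Agent.Zk77.AP
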