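import Pool.Agent.Zk77.AP.RecF
import Pool.Agent.Zk77.AP.UseN

/-!
# Record scale: arguments with rough values (helper77)
-/

set_option autoImplicit false

namespace Pool.Agent.Zk77.AP

open Finset Filter Topology Polynomial
open Pool.Agent.H256R2.SC (ff)
open Pool.Agent.Y877
open Pool.Agent.W123.RU
open Pool.Agent.TH977.PW (Rough)

open Classical in
theorem recRough : ∃ η : ℝ, 0 < η ∧ ∀ T : ℕ, 1 ≤ T → ∀ m : Fin T → ℕ, Function.Injective m →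
    ∀ d : ℕ, Squarefree d → ∃ (C : ℕ) (X₀ : ℝ), ∀ {ι : Type} [Fintype ι] [Nonempty ι] (f : ι → ℤ[X]),
    Poly.Sys f → ∀ n s : ℕ, 2 ≤ s → ∀ θ : ℝ, 0 < θ → ∀ ε : ℝ, 0 < ε → ∀ᶠ x : ℕ in atTop, ∀ Y : ℕ,
    (x : ℝ) ^ θ ≤ Y → Y ≤ x →
    ∀ X : Fin n → ℝ, (∀ ρ, X₀ ≤ X ρ) → ∀ a b : Fin n → ℕ,
    (∀ ρ, (a ρ).Coprime d) → (∀ ρ, 1 ≤ b ρ) → (∀ ρ, d ∣ b ρ) →
    (∀ ρ, ∀ p : ℕ, p.Prime → ∃ r : ℤ, ∀ i, ¬ (p : ℤ) ∣ b ρ * m i + r) →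
    (∀ ρ, ((C * (b ρ * x) : ℕ) : ℝ) ≤ ff (X ρ)) →
    (((Ioc x (x + Y)).filter (fun k => Rough f s k ∧ ¬ ∀ ρ, GoodR η m (X ρ) d (a ρ) (b ρ) k)).card : ℝ) ≤
      ε * Y / Real.log x ^ (Fintype.card ι) := by
  obtain ⟨η, hη, hh⟩ := recFreeN
  refine ⟨η, hη, fun T hT m hm d hd => ?_⟩
  obtain ⟨C, hC, X₀, hh⟩ := hh T hT m hm d hd
  refine ⟨2 * C, X₀, fun {ι} _ _ f hf n s hs θ hθ ε hε => ?_⟩
  filter_upwards [roughs (κ := Option (Fin n × Finset (Fin T × Fin T))) f hf θ hθ s hs C hC ε hε] with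
    x hx Y hxY hYx X hX a b ha hb hdb hadm hR
  obtain ⟨col, hF⟩ := hh n X hX a b ha hb hdb hadm (x + Y) (fun ρ => by
    refine le_trans ?_ (hR ρ)
    rw [Nat.cast_le]
    calc C * (b ρ * (x + Y)) ≤ C * (b ρ * (2 * x)) :=
          Nat.mul_le_mul_left _ (Nat.mul_le_mul_left _ (by omega))
      _ = 2 * C * (b ρ * x) := by ring)
  generalize hBad : (fun k => ∃ ρ, ¬ _) = Bad at hF
  have h1 := hx Y hxY hYx Bad col hF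
  refine le_trans ?_ h1
  rw [Nat.cast_le]
  apply card_le_card
  intro k hk
  rw [mem_filter] at hk ⊢
  refine ⟨hk.1, hk.2.1, ?_⟩
  rw [← hBad]
  by_contra hcon
  push Not at hcon
  exact hk.2.2 hcon

end Pool.Agent.Zk77.AP
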